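import Pool.Agent.Helper72.PR.Final

/-!
# Preference realisability in the Manhattan metric is NP-hard for every fixed dimension `d ≥ 2`

An instance is a pair `(A, V)`: a list `A` of alternatives without repetition and a list `V` of
orders, each order being a list in which every alternative of `A` occurs exactly once (the best
alternative first).  The instance is realisable in `ℝ^d` with the Manhattan metric if there are
points `p a` for the alternatives and a point `q` for every order `v` such that whenever `a` stands
before `b` in `v` the point `q` is nearer to `p a` than to `p b`.

The proof is a reduction from satisfiability of formulas with three literals per clause.  In a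
realisation every pair (voter, alternative) has a type, the linear form of the dual ball at which
the distance is attained.  A palette of `2 ^ d` mutually conflicting pairs names all types, which
makes the type of an alternative of a variable a truth value.
-/

set_option autoImplicit false

namespace Pool.Agent.Results.MP_d633a5_lc.ManhattanHard

open Pool.Agent.PolyTime Pool.Agent.Helper72.PR

/-- Preference realisability in `ℝ^d` with the Manhattan metric. -/
def Realizable1 (d : ℕ) : Set (List ℕ × List (List ℕ)) :=
  {I | I.1.Nodup ∧ (∀ v ∈ I.2, v.Perm I.1) ∧
    ∃ p : ℕ → Fin d → ℝ, ∀ v ∈ I.2, ∃ q : Fin d → ℝ,
      v.Pairwise (fun a b => ∑ i, |q i - p a i| < ∑ i, |q i - p b i|)}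

theorem result : ∀ d : ℕ, 2 ≤ d → NPHard (Realizable1 d) := fun _ hd => npHard_REAL1 hd

end Pool.Agent.Results.MP_d633a5_lc.ManhattanHard
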