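import Pool.Agent.Helper72.PR.Final

/-!
# Preference realisability in the maximum metric is NP-hard for every fixed dimension `d ≥ 2`

An instance is a pair `(A, V)`: a list `A` of alternatives without repetition and a list `V` of
orders, each order being a list in which every alternative of `A` occurs exactly once (the best
alternative first).  The instance is realisable in `ℝ^d` with the maximum metric (the distance
`dist` of Mathlib on `Fin d → ℝ`) if there are points `p a` for the alternatives and a point `q`
for every order `v` such that whenever `a` stands before `b` in `v` the point `q` is nearer to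
`p a` than to `p b`.

The proof is a reduction from satisfiability of formulas with three literals per clause; a palette
of `2 * d` mutually conflicting pairs (voter, alternative) names the facets of the cube.
-/

set_option autoImplicit false

namespace Pool.Agent.Results.MP_d633a5_lc.MaximumHard

open Pool.Agent.PolyTime Pool.Agent.Helper72.PR

/-- Preference realisability in `ℝ^d` with the maximum metric. -/
def RealizableInf (d : ℕ) : Set (List ℕ × List (List ℕ)) :=
  {I | I.1.Nodup ∧ (∀ v ∈ I.2, v.Perm I.1) ∧
    ∃ p : ℕ → Fin d → ℝ, ∀ v ∈ I.2, ∃ q : Fin d → ℝ,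
      v.Pairwise (fun a b => (⨆ i, |q i - p a i|) < ⨆ i, |q i - p b i|)}

theorem iSup_eq_dist {d : ℕ} (hd : 2 ≤ d) (q p : Fin d → ℝ) : (⨆ i, |q i - p i|) = dist q p := by
  have : Nonempty (Fin d) := ⟨⟨0, by omega⟩⟩
  apply le_antisymm
  · apply ciSup_le
    intro i
    have := dist_le_pi_dist q p i
    rwa [Real.dist_eq] at this
  · have h0 : ∀ i, |q i - p i| ≤ ⨆ i, |q i - p i| := fun i =>
      le_ciSup (f := fun i => |q i - p i|) (Set.finite_range _).bddAbove i
    rw [dist_pi_le_iff (le_trans (abs_nonneg _) (h0 ⟨0, by omega⟩))]
    intro i
    rw [Real.dist_eq]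
    exact h0 i

theorem result : ∀ d : ℕ, 2 ≤ d → NPHard (RealizableInf d) := by
  intro d hd
  have h : RealizableInf d = REALinf d := by
    unfold RealizableInf REALinf RealBy
    simp only [iSup_eq_dist hd]
  rw [h]
  exact npHard_REALinf hd

end Pool.Agent.Results.MP_d633a5_lc.MaximumHard
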